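import Pool.Agent.W186.GT.Main

set_option autoImplicit false

/-!
# MP_32c55d_nt: the analytic rank as a number of zeros of averages of the newform

Let `E` be an elliptic curve over the rational numbers, `a n` the coefficients of its L-series,
`f` the function `f(y) = Σ a n exp (-2 π n y / √N)`, the newform of `E` at the point `i y / √N` of the
imaginary axis, and `A τ` the average of `u ↦ exp u * f (exp u)` against a Gaussian of variance `τ`.
Then the number of sign changes of `A τ` is a nonincreasing function of `τ > 0`; it is never smaller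
than the number of real zeros of the completed L-function, counted with multiplicity; and for all
large `τ` this is exactly the number of zeros of `A τ`. The zeros of `A τ` in the window
`|u| ≤ r τ`, for `r` small and `τ` large, are as many as the order of vanishing at `s = 1`. So the rank
conjecture for `E` says that the number of zeros in the window is the rank.

Proof. The two-sided Laplace transform of `A τ` is that of `u ↦ exp u * f (exp u)`, i.e. the completed
L-function, times a Gaussian without zeros. Lower bound and monotonicity: the rule of Descartes for Laplace transforms.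
Upper bound: `A τ (τ x)` is, up to a positive factor, a function of `x` which tends to the completed L-function
at `1 + x` with all its derivatives, locally uniformly, as `τ` tends to infinity, and which has a constant sign
for large `|x|`, uniformly in `τ`.
-/

namespace Pool.Agent.Results.MP_32c55d_nt.NewformSignChanges

open MeasureTheory Set

/-- The coefficients of the L-series of `E`. -/
noncomputable def coeff (E : WeierstrassCurve ℚ) (n : ℕ) : ℝ := (E.LFunction n : ℝ)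

/-- `f(y) = Σ a n exp (-2 π n y / √N)`. -/
noncomputable def form (E : WeierstrassCurve ℚ) (N y : ℝ) : ℝ :=
  ∑' n : ℕ, coeff E n * Real.exp (-(2 * Real.pi * n * y / Real.sqrt N))

/-- `f(1/y) = w y² f(y)`, with `a 1 = 1` and polynomial growth of `a n`. By the modularity theorem
this holds for every `E`, with `N` the conductor and `w` the root number. -/
def ModularWith (E : WeierstrassCurve ℚ) (N w : ℝ) : Prop :=
  0 < N ∧ (w = 1 ∨ w = -1) ∧ coeff E 1 = 1 ∧ (∃ C A : ℝ, ∀ n : ℕ, |coeff E n| ≤ C * (n : ℝ) ^ A) ∧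
    ∀ y : ℝ, 0 < y → form E N (1 / y) = w * y ^ 2 * form E N y

/-- The average of `v ↦ exp v * f (exp v)` against the Gaussian of mean `u` and variance `τ`. -/
noncomputable def average (E : WeierstrassCurve ℚ) (N τ u : ℝ) : ℝ :=
  (∫ v, Real.exp v * form E N (Real.exp v) * Real.exp (-(u - v) ^ 2 / (2 * τ))) / Real.sqrt (2 * Real.pi * τ)

/-- `h` changes sign at least `n` times. -/
def SignChanges (h : ℝ → ℝ) (n : ℕ) : Prop :=
  ∃ t : ℕ → ℝ, (∀ i < n, t i < t (i + 1)) ∧ ∀ i < n, h (t i) * h (t (i + 1)) < 0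

/-- `L` is the L-function of `E`: entire, and equal to the L-series for large real part. -/
def IsLFunction (E : WeierstrassCurve ℚ) (L : ℂ → ℂ) : Prop :=
  Differentiable ℂ L ∧ ∃ σ : ℝ, ∀ s : ℂ, σ < s.re → L s = E.LSeries s

/-- The number of zeros of the average in the window `|u| ≤ r τ`. -/
noncomputable def windowZeros (E : WeierstrassCurve ℚ) (N r τ : ℝ) : ℕ :=
  {u : ℝ | |u| ≤ r * τ ∧ average E N τ u = 0}.ncard

lemma average_eq (E : WeierstrassCurve ℚ) (N τ u : ℝ) : average E N τ u =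
    Pool.Agent.W186.GT.Ga (Pool.Agent.W186.GT.fo (coeff E) N) τ u / Real.sqrt (2 * Real.pi * τ) := rfl

theorem result (E : WeierstrassCurve ℚ) [E.IsElliptic] (N w : ℝ) (hE : ModularWith E N w) (L : ℂ → ℂ)
    (hL : IsLFunction E L) :
    (∃ Z : Finset ℝ, (∀ x : ℝ, x ∈ Z ↔ 1 < x ∧ L x = 0) ∧
      (∀ τ : ℝ, 0 < τ →
        SignChanges (average E N τ) (analyticOrderNatAt L 1 + 2 * ∑ x ∈ Z, analyticOrderNatAt L x)) ∧
      ∃ τ0 : ℝ, 1 ≤ τ0 ∧ ∀ τ : ℝ, τ0 ≤ τ → {u : ℝ | average E N τ u = 0}.Finite ∧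
        {u : ℝ | average E N τ u = 0}.ncard =
          analyticOrderNatAt L 1 + 2 * ∑ x ∈ Z, analyticOrderNatAt L x) ∧
    (∀ τ τ' : ℝ, 0 < τ → τ < τ' → ∀ n : ℕ, SignChanges (average E N τ') n → SignChanges (average E N τ) n) ∧
    (∃ r1 : ℝ, 0 < r1 ∧ ∀ r : ℝ, 0 < r → r ≤ r1 → ∃ τ0 : ℝ, 1 ≤ τ0 ∧ ∀ τ : ℝ, τ0 ≤ τ →
      windowZeros E N r τ = analyticOrderNatAt L 1) ∧
    (analyticOrderNatAt L 1 = Module.finrank ℤ E.toAffine.Point ↔
      ∃ r1 : ℝ, 0 < r1 ∧ ∀ r : ℝ, 0 < r → r ≤ r1 → ∃ τ0 : ℝ, 1 ≤ τ0 ∧ ∀ τ : ℝ, τ0 ≤ τ →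
        windowZeros E N r τ = Module.finrank ℤ E.toAffine.Point) := by
  obtain ⟨hN, hw, h1, hgr, hsym⟩ := hE
  obtain ⟨hLd, σ1, hLs⟩ := hL
  have hmod : Pool.Agent.W186.GT.Mod (coeff E) N w := by
    refine ⟨hN, hw, ?_, h1, hgr, hsym⟩
    unfold coeff
    simp
  have hLa : ∃ σ1 : ℝ, ∀ s : ℂ, σ1 < s.re → L s = ∑' n : ℕ, (coeff E n : ℂ) / (n : ℂ) ^ s := by
    refine ⟨σ1, fun s hs => ?_⟩
    rw [hLs s hs]
    unfold WeierstrassCurve.LSeries LSeries
    refine tsum_congr fun n => ?_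
    unfold coeff
    rcases Nat.eq_zero_or_pos n with h0 | h0
    · rw [h0]; simp
    · rw [LSeries.term_of_ne_zero h0.ne']
      simp
  obtain ⟨Z, hZ, hlow, hmono, hup, hwin⟩ := Pool.Agent.W186.GT.main (coeff E) N w hmod L hLd hLa
  have hsq : ∀ τ : ℝ, 0 < τ → 0 < Real.sqrt (2 * Real.pi * τ) := fun τ hτ => by positivity
  have hzero : ∀ τ : ℝ, 0 < τ → ∀ u, average E N τ u = 0 ↔
      Pool.Agent.W186.GT.Ga (Pool.Agent.W186.GT.fo (coeff E) N) τ u = 0 := by
    intro τ hτ u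
    rw [average_eq, div_eq_zero_iff]
    exact ⟨fun h => h.resolve_right (hsq τ hτ).ne', Or.inl⟩
  have hsc : ∀ τ : ℝ, 0 < τ → ∀ n, SignChanges (average E N τ) n ↔
      Pool.Agent.W186.GT.SC (Pool.Agent.W186.GT.Ga (Pool.Agent.W186.GT.fo (coeff E) N) τ) n := by
    intro τ hτ n
    have key : ∀ u v : ℝ, average E N τ u * average E N τ v < 0 ↔
        Pool.Agent.W186.GT.Ga (Pool.Agent.W186.GT.fo (coeff E) N) τ u *
          Pool.Agent.W186.GT.Ga (Pool.Agent.W186.GT.fo (coeff E) N) τ v < 0 := by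
      intro u v
      rw [average_eq, average_eq, div_mul_div_comm, div_lt_iff₀ (mul_pos (hsq τ hτ) (hsq τ hτ)), zero_mul]
    constructor
    · rintro ⟨t, ht, hs⟩
      exact ⟨t, ht, fun i hi => (key _ _).1 (hs i hi)⟩
    · rintro ⟨t, ht, hs⟩
      exact ⟨t, ht, fun i hi => (key _ _).2 (hs i hi)⟩
  have hwin' : ∃ r1 : ℝ, 0 < r1 ∧ ∀ r : ℝ, 0 < r → r ≤ r1 → ∃ τ0 : ℝ, 1 ≤ τ0 ∧ ∀ τ : ℝ, τ0 ≤ τ →
      windowZeros E N r τ = analyticOrderNatAt L 1 := by
    obtain ⟨r1, hr1, hk⟩ := hwin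
    refine ⟨r1, hr1, fun r hr hrr => ?_⟩
    obtain ⟨τ0, hτ0, hk2⟩ := hk r hr hrr
    refine ⟨τ0, hτ0, fun τ hτ => ?_⟩
    rw [← hk2 τ hτ]
    unfold windowZeros
    congr 1
    ext u
    simp only [mem_setOf_eq]
    rw [hzero τ (by linarith)]
  refine ⟨⟨Z, hZ, fun τ hτ => (hsc τ hτ _).2 (hlow τ hτ), ?_⟩, fun τ τ' hτ hττ n hn => ?_, hwin', ?_⟩
  · obtain ⟨τ0, hτ0, hk⟩ := hup
    refine ⟨τ0, hτ0, fun τ hτ => ?_⟩
    have e : {u : ℝ | average E N τ u = 0} =
        {u : ℝ | Pool.Agent.W186.GT.Ga (Pool.Agent.W186.GT.fo (coeff E) N) τ u = 0} := by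
      ext u
      exact hzero τ (by linarith) u
    rw [e]
    exact hk τ hτ
  · exact (hsc τ hτ n).2 (hmono τ τ' hτ hττ n ((hsc τ' (by linarith) n).1 hn))
  · constructor
    · intro h
      rw [← h]
      exact hwin'
    · rintro ⟨r2, hr2, hk2⟩
      obtain ⟨r1, hr1, hk1⟩ := hwin'
      obtain ⟨τ1, hτ1, hk1⟩ := hk1 (min r1 r2) (lt_min hr1 hr2) (min_le_left _ _)
      obtain ⟨τ2, hτ2, hk2⟩ := hk2 (min r1 r2) (lt_min hr1 hr2) (min_le_right _ _)
      rw [← hk1 (max τ1 τ2) (le_max_left _ _), hk2 (max τ1 τ2) (le_max_right _ _)]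

end Pool.Agent.Results.MP_32c55d_nt.NewformSignChanges
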