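import Pool.Agent.W189.FC.Mot
import Pool.Agent.W263.LG.NFSys

/-!
# One-sided bounds for one finite cut-off over a number field

Let `K` be a number field, `E : y² = x³ + a x + b` an elliptic curve, `a, b ∈ 𝓞 K` (every elliptic curve over
`K` has such an equation), `S` a finite set of places which contains all places dividing
`2 (4a³ + 27b²)`, and let the Euler factors of `L(E/K, s)` at the places of `S` be arbitrary inverse
polynomials `B_v(q_v^{-s})⁻¹` without poles at the real points `s ≥ 1` (for the Hasse-Weil `L`-function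
they are of the usual form, of degree at most `2`).  Suppose, as in the problem, that `L(E/K, s)`
continues to an entire function `F`; no functional equation and no bound of growth is used.  Let
`N_v` be the number of affine points of `E` over the residue field at `v`.

Let `ψ ≥ 0` be ANY bounded measurable function on the real line which vanishes beyond some point, and

  `S_ψ(X) = ∑_{v ∉ S} ψ(log q_v / log X) log ((N_v + 1) / q_v)`,

a finite sum; for `ψ = 1` on `(-∞, 1]`, `0` beyond, it is the logarithm of the original product of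
Birch and Swinnerton-Dyer.  It is shown that bounds from ONE SIDE for ONE such `ψ` are enough:

* if `S_ψ(X) ≤ C X^y` for large `X`, and `ψ` does not vanish almost everywhere on `(α, ∞)`, then
  `F(s) ≠ 0` for `Re s > 1 + y/α`.  If `F` has no real zeros `> 1`, then `S_ψ(X) ≥ -C X^y` suffices;
* let `ψ(0+) = 1` in the sense of Dini, `∫_0^1 |ψ(x) - 1| dx/x < ∞`, and `r = ord_{s=1} F`.  If
  `S_ψ(X) ≤ κ log log X` for large `X`, then the Riemann hypothesis holds, `F(s) ≠ 0` for
  `Re s > 1`, and `r ≤ κ`.  If `F` has no real zeros `> 1` and `S_ψ(X) ≥ κ log log X` for large `X`,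
  then again `F(s) ≠ 0` for `Re s > 1`, and `r ≥ κ`;
* so, if `limsup S_ψ(X) / log log X ≤ rank E(K)`, the Riemann hypothesis holds and
  `r ≤ rank E(K)`; and if `S_ψ(X) / log log X → rank E(K)`, then `r = rank E(K)`.

For `K = ℚ` an upper bound `κ < 2` gives the full rank conjecture for `E`, by Gross-Zagier and
Kolyvagin (this is not used below).

Goldfeld (1982) has the conclusions from the two-sided asymptotic formula for the sharp cut-off over
`ℚ`.  The new point of the proof is a form of Landau's theorem for functions which have, at the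
abscissa of convergence, a logarithmic singularity of the sign given by a real zero: such a zero
`1 + x₀` of multiplicity `m` contributes `m ∫ ψ(1/t) e^{x₀T/t} dt/t ≥ 0` to the sum.  We add
this nonnegative function to `C e^{yT} - S_ψ(e^T) ≥ 0`; the new function is nonnegative
and its Laplace transform continues beyond the abscissa.  That all other zeros are out of the way
follows from the theorem on finite cut-offs (`Pool.Agent.W189.FC.Cont`, also the subject of
`MP_6dc9d1_nt/FiniteCutoffs`), applied at the abscissa of convergence.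
-/

set_option autoImplicit false

namespace Pool.Agent.Results.MP_32c55d_nt.OneSidedCutoffs

open NumberField IsDedekindDomain Filter Topology Polynomial MeasureTheory Set

noncomputable section

variable {K : Type} [Field K] [NumberField K]

/-- The number of affine points of `y² = x³ + a x + b` over the residue field at `v`. -/
def pointCount (a b : 𝓞 K) (v : HeightOneSpectrum (𝓞 K)) : ℕ :=
  Nat.card {Q : (𝓞 K ⧸ v.asIdeal) × (𝓞 K ⧸ v.asIdeal) //
    Q.2 ^ 2 = Q.1 ^ 3 + Ideal.Quotient.mk v.asIdeal a * Q.1 + Ideal.Quotient.mk v.asIdeal b}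

/-- `a_v = q_v - N_v`, `q_v = Nv`, `N_v` the number of affine points. -/
def frobTrace (a b : 𝓞 K) (v : HeightOneSpectrum (𝓞 K)) : ℝ :=
  (Ideal.absNorm v.asIdeal : ℝ) - pointCount a b v

open Classical in
/-- The Euler product `L(E/K, s)`: the factor at `v ∉ S` is `(1 - a_v q_v^{-s} + q_v^{1-2s})⁻¹`, at the
places of the finite set `S` it is `B_v(q_v^{-s})⁻¹`. -/
def LFun (a b : 𝓞 K) (S : Finset (HeightOneSpectrum (𝓞 K)))
    (B : HeightOneSpectrum (𝓞 K) → ℂ[X]) (s : ℂ) : ℂ :=
  ∏' v : HeightOneSpectrum (𝓞 K),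
    if v ∈ S then ((B v).eval (((Ideal.absNorm v.asIdeal : ℕ) : ℂ) ^ (-s)))⁻¹
    else (1 - (frobTrace a b v : ℂ) * ((Ideal.absNorm v.asIdeal : ℕ) : ℂ) ^ (-s) +
      ((Ideal.absNorm v.asIdeal : ℕ) : ℂ) ^ (1 - 2 * s))⁻¹

/-- The Euler factors at the places of `S` have no poles at the real points `s ≥ 1`. -/
def BadFactors (S : Finset (HeightOneSpectrum (𝓞 K)))
    (B : HeightOneSpectrum (𝓞 K) → ℂ[X]) : Prop :=
  ∀ v ∈ S, ∀ s : ℝ, 1 ≤ s → (B v).eval (((Ideal.absNorm v.asIdeal : ℕ) : ℂ) ^ (-(s : ℂ))) ≠ 0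

/-- `F` is an entire function which agrees with `L(E/K, s)` at the real points `s > 3/2`. -/
def IsLFunction (a b : 𝓞 K) (S : Finset (HeightOneSpectrum (𝓞 K)))
    (B : HeightOneSpectrum (𝓞 K) → ℂ[X]) (F : ℂ → ℂ) : Prop :=
  Differentiable ℂ F ∧ ∀ s : ℝ, 3 / 2 < s → F s = LFun a b S B s

open Classical in
/-- The sum `S_ψ(X) = ∑_{v ∉ S} ψ(log q_v / log X) log ((N_v + 1) / q_v)`. -/
def cutSum (a b : 𝓞 K) (S : Finset (HeightOneSpectrum (𝓞 K))) (ψ : ℝ → ℝ) (X : ℝ) : ℝ :=
  ∑' v : HeightOneSpectrum (𝓞 K), if v ∈ S then 0 else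
    ψ (Real.log (Ideal.absNorm v.asIdeal : ℝ) / Real.log X) *
      Real.log (((pointCount a b v : ℝ) + 1) / Ideal.absNorm v.asIdeal)

/-- `ψ` is nonnegative, measurable, bounded, and vanishes beyond some point. -/
def IsCutoff (ψ : ℝ → ℝ) : Prop :=
  Measurable ψ ∧ (∀ x, 0 ≤ ψ x) ∧ (∃ M : ℝ, ∀ x, ψ x ≤ M) ∧ ∃ A : ℝ, ∀ x, A < x → ψ x = 0

/-- `ψ(0+) = 1` in the sense of Dini: `∫_0^1 |ψ(x) - 1| dx/x < ∞`. -/
def DiniOne (ψ : ℝ → ℝ) : Prop := IntegrableOn (fun x : ℝ => (ψ x - 1) / x) (Ioc 0 1)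

/-- The Riemann hypothesis for `F`. -/
def RiemannHyp (F : ℂ → ℂ) : Prop := ∀ s : ℂ, 1 < s.re → F s ≠ 0

/-- `F` has no real zeros `> 1`. -/
def NoRealZeros (F : ℂ → ℂ) : Prop := ∀ σ : ℝ, 1 < σ → F σ ≠ 0

open Classical in
/-- The rank of the group of `K`-rational points. -/
def rank (a b : 𝓞 K) : ℕ :=
  Module.finrank ℤ
    (WeierstrassCurve.Affine.Point
      (WeierstrassCurve.toAffine
        ({ a₁ := 0, a₂ := 0, a₃ := 0, a₄ := (a : K), a₆ := (b : K) } : WeierstrassCurve K)))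

/-! ### Translation -/

open Pool.Agent.W263.LG.NF (powerTrace tdataK LFB_K central norm_ge_two)
open Pool.Agent.W189.FC.Mot (cutS)
open Pool.Agent.H341R2 (sysK)

theorem cen : ((1 : ℝ) + 1) / 2 = 1 := by norm_num

theorem cen2 : ((1 : ℝ) + 2) / 2 = 3 / 2 := by norm_num

theorem hcc : ((((1 : ℝ) + 1) / 2 : ℝ) : ℂ) = 1 := by rw [cen, Complex.ofReal_one]

theorem cut_eq {a b : 𝓞 K} {S : Finset (sysK K).X} (hS : ∀ v, v ∉ S → (2 : 𝓞 K) ∉ v.asIdeal)
    (ψ : ℝ → ℝ) (X : ℝ) :
    cutSum a b S ψ X = cutS (sysK K) S (powerTrace a b) 1 ψ (Real.log X) := by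
  unfold cutSum cutS
  refine tsum_congr fun (v : HeightOneSpectrum (𝓞 K)) => ?_
  by_cases hv : v ∈ S
  · exact (if_pos hv).trans (if_pos hv).symm
  · refine (if_neg hv).trans (Eq.trans ?_ (if_neg hv).symm)
    rw [central v (hS v hv)]
    rfl

/-- **One-sided bounds for one finite cut-off, over a number field.** -/
theorem result (K : Type) [Field K] [NumberField K] (a b : 𝓞 K)
    (S : Finset (HeightOneSpectrum (𝓞 K)))
    (hS : ∀ v, v ∉ S → 2 * (4 * a ^ 3 + 27 * b ^ 2) ∉ v.asIdeal)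
    (B : HeightOneSpectrum (𝓞 K) → ℂ[X]) (hB : BadFactors S B)
    (F : ℂ → ℂ) (hF : IsLFunction a b S B F) :
    ∃ r : ℕ, analyticOrderAt F 1 = r ∧ ∀ ψ : ℝ → ℝ, IsCutoff ψ →
      (∀ α y C : ℝ, 0 < α → (¬ ∀ᵐ x : ℝ, α < x → ψ x = 0) → 0 ≤ y →
        ((∀ᶠ X : ℝ in atTop, cutSum a b S ψ X ≤ C * X ^ y) ∨
          (NoRealZeros F ∧ ∀ᶠ X : ℝ in atTop, -(C * X ^ y) ≤ cutSum a b S ψ X)) →
        ∀ s : ℂ, 1 + y / α < s.re → F s ≠ 0) ∧
      (DiniOne ψ →
        (∀ κ : ℝ, (∀ᶠ X : ℝ in atTop, cutSum a b S ψ X ≤ κ * Real.log (Real.log X)) →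
          RiemannHyp F ∧ r ≤ κ) ∧
        (∀ κ : ℝ, NoRealZeros F →
          (∀ᶠ X : ℝ in atTop, κ * Real.log (Real.log X) ≤ cutSum a b S ψ X) →
          RiemannHyp F ∧ κ ≤ r) ∧
        ((∀ ε > 0, ∀ᶠ X : ℝ in atTop,
            cutSum a b S ψ X ≤ (rank a b + ε) * Real.log (Real.log X)) →
          RiemannHyp F ∧ r ≤ rank a b) ∧
        (Tendsto (fun X : ℝ => cutSum a b S ψ X / Real.log (Real.log X)) atTop (𝓝 (rank a b)) →
          RiemannHyp F ∧ r = rank a b)) := by
  revert S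
  intro (S : Finset (Pool.Agent.H341R2.sysK K).X) hS hB hF
  have hS2 : ∀ v, v ∉ S → (2 : 𝓞 K) ∉ v.asIdeal := fun v hv h =>
    hS v hv (v.asIdeal.mul_mem_right _ h)
  have E : Pool.Agent.W263.EP.TData (sysK K)
      (Pool.Agent.W263.EP.tn (sysK K) (S : Set (sysK K).X) (powerTrace a b) 1) 2 := tdataK hS2
  have hB' : ∀ v ∈ S, ∀ s : ℝ, ((1 : ℝ) + 1) / 2 ≤ s →
      (B v).eval ((((sysK K).N v : ℕ) : ℂ) ^ (-(s : ℂ))) ≠ 0 := by
    intro v hv s hs
    rw [cen] at hs
    exact hB v hv s hs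
  have hF2 : ∀ s : ℝ, ((1 : ℝ) + 2) / 2 < s →
      F s = Pool.Agent.W263.EP.LFB (sysK K) S B (powerTrace a b) s := by
    intro s hs
    rw [cen2] at hs
    rw [LFB_K hS2 B (by rw [Complex.ofReal_re]; linarith), hF.2 s hs]
    rfl
  have hcut : ∀ ψ T, cutS (sysK K) S (powerTrace a b) 1 ψ T = cutSum a b S ψ (Real.exp T) := by
    intro ψ T
    rw [cut_eq hS2, Real.log_exp]
  obtain ⟨r, hr⟩ := Pool.Agent.W189.FC.Mot.order_fin (S := sysK K) (Bs := S)
    (B := B) (tr := powerTrace a b) (ω := 1) E hB' hF.1 hF2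
  rw [hcc] at hr
  refine ⟨r, hr, fun ψ hψ => ?_⟩
  obtain ⟨hm, hψ0, ⟨M, hM⟩, A, hA⟩ := hψ
  refine ⟨fun α y C hα hne hy hO => ?_, fun hD => ?_⟩
  · have key := Pool.Agent.W189.FC.Mot.growth_one (S := sysK K) (Bs := S)
      (B := B) (tr := powerTrace a b) (ω := 1) E hB' hF.1 hF2 hm hψ0 hM hA hα hne (κ := y) hy ?_
    · rwa [cen] at key
    · rcases hO with h | ⟨hr, h⟩
      · left
        obtain ⟨T₀, hT⟩ := eventually_atTop.1 (Real.tendsto_exp_atTop.eventually h)
        refine ⟨C, T₀, fun T hT' => ?_⟩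
        have h1 := hT T hT'
        rw [← Real.exp_mul, mul_comm T y] at h1
        rw [hcut]
        exact h1
      · right
        refine ⟨fun σ hσ => hr σ (by rwa [cen] at hσ), ?_⟩
        obtain ⟨T₀, hT⟩ := eventually_atTop.1 (Real.tendsto_exp_atTop.eventually h)
        refine ⟨C, T₀, fun T hT' => ?_⟩
        have h1 := hT T hT'
        rw [← Real.exp_mul, mul_comm T y] at h1
        rw [hcut]
        exact h1
  · have hup : ∀ κ : ℝ, (∀ᶠ X : ℝ in atTop, cutSum a b S ψ X ≤ κ * Real.log (Real.log X)) →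
        RiemannHyp F ∧ r ≤ κ := by
      intro κ h
      obtain ⟨h1, m, hm1, hm2⟩ := Pool.Agent.W189.FC.Mot.upper (S := sysK K) (Bs := S)
        (B := B) (tr := powerTrace a b) (ω := 1) E hB' hF.1 hF2 hm hψ0 hM hA hD (κ := κ) (by
          have h2 := Real.tendsto_exp_atTop.eventually h
          filter_upwards [h2] with T hT
          rw [Real.log_exp] at hT
          rw [hcut]
          exact hT)
      rw [cen] at h1
      rw [hcc] at hm1
      have h3 : (r : ℕ∞) = m := hr.symm.trans hm1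
      have h4 : r = m := by exact_mod_cast h3
      exact ⟨h1, by rw [h4]; exact hm2⟩
    have hlo : ∀ κ : ℝ, NoRealZeros F →
        (∀ᶠ X : ℝ in atTop, κ * Real.log (Real.log X) ≤ cutSum a b S ψ X) →
        RiemannHyp F ∧ κ ≤ r := by
      intro κ hnr h
      obtain ⟨h1, m, hm1, hm2⟩ := Pool.Agent.W189.FC.Mot.lower (S := sysK K) (Bs := S)
        (B := B) (tr := powerTrace a b) (ω := 1) E hB' hF.1 hF2 hm hψ0 hM hA hD (κ := κ)
        (fun σ hσ => hnr σ (by rwa [cen] at hσ)) (by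
          have h2 := Real.tendsto_exp_atTop.eventually h
          filter_upwards [h2] with T hT
          rw [Real.log_exp] at hT
          rw [hcut]
          exact hT)
      rw [cen] at h1
      rw [hcc] at hm1
      have h3 : (r : ℕ∞) = m := hr.symm.trans hm1
      have h4 : r = m := by exact_mod_cast h3
      exact ⟨h1, by rw [h4]; exact hm2⟩
    have hlim : (∀ ε > 0, ∀ᶠ X : ℝ in atTop,
        cutSum a b S ψ X ≤ (rank a b + ε) * Real.log (Real.log X)) →
        RiemannHyp F ∧ r ≤ rank a b := by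
      intro h
      refine ⟨(hup _ (h 1 one_pos)).1, ?_⟩
      have h2 : (r : ℝ) ≤ rank a b := by
        refine le_of_forall_pos_le_add fun ε hε => ?_
        exact (hup _ (h ε hε)).2
      exact_mod_cast h2
    refine ⟨hup, hlo, hlim, fun h => ?_⟩
    generalize rank a b = R at h hlim ⊢
    obtain ⟨h1, m, hm1, hm2⟩ := Pool.Agent.W189.FC.Mot.goldfeld (S := sysK K) (Bs := S)
      (B := B) (tr := powerTrace a b) (ω := 1) E hB' hF.1 hF2 hm (M := M)
      (fun x => by rw [abs_of_nonneg (hψ0 x)]; exact hM x) hA hD (k := (R : ℝ)) (by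
        have h2 := h.comp Real.tendsto_exp_atTop
        refine h2.congr fun T => ?_
        simp only [Function.comp_apply]
        rw [Real.log_exp, hcut])
    rw [cen] at h1
    rw [hcc] at hm1
    have h3 : (r : ℕ∞) = m := hr.symm.trans hm1
    have h4 : r = m := by exact_mod_cast h3
    refine ⟨h1, ?_⟩
    rw [h4]
    exact_mod_cast hm2

end

end Pool.Agent.Results.MP_32c55d_nt.OneSidedCutoffs
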