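import Pool.Agent.W263.SP.NF

/-!
# Averages of `a_v log q_v / q_v` and the order of vanishing, outside of sparse sets

Let `E : y² = x³ + a x + b` be an elliptic curve over a number field `K`, `a, b ∈ 𝓞_K`, let `S` be a finite
set of places which contains the places dividing `2 (4a³ + 27b²)`, and let `F` be the analytic
continuation of the L-function of `E/K` without the Euler factors at the places of `S` (they are
analytic and do not vanish for `Re s ≥ 1`) to the half plane `Re s > 0`, of polynomial growth; `r` is its order at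
`s = 1`.  Put

  `V(x) = (log x)⁻¹ ∑_{v ∉ S, j ≥ 1, q_v^j ≤ x} (α_v^j + β_v^j) log q_v / q_v^j`.

For `K = ℚ` Kim and Murty (2023) proved: if `V(x)` converges, the Riemann hypothesis holds and the limit
is `-r`; and on the Riemann hypothesis `V(x_n) → -r` for some `x_n ∈ [2^n, 2^(n+1)]` (they use the sum over
the primes, the limit is `-r + 1/2`).  Convergence is deeper than the Riemann hypothesis (it is equivalent
to the original conjecture of Birch and Swinnerton-Dyer on the products of the `N_p / p`).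

Here it is proved that the Riemann hypothesis and `ord_{s=1} L(E/K, s) = ρ` are together equivalent to
`V(x) = -ρ + O((log log x)³ / log x)` outside of very sparse sets (with a weak upper bound for one mean of
the products): the set of the `x ∈ [X, 2X]` with `|V(x) + ρ| > ε` has measure at most
`X exp (-κ (ε log X / log log X)^{1/2})` for all `ε ≥ C (log log X)³ / log X`.  With `ρ = rank E(K)` it is an
equivalent form of the rank conjecture together with the Riemann hypothesis.
-/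

set_option autoImplicit false

namespace Pool.Agent.Results.MP_32c55d_nt.SparseAverages

open NumberField IsDedekindDomain Filter Topology Set
open Pool.Agent.W263.LG.NF (pointCount frobTrace powerTrace LFun productMean logMean tdataK LFB_K
  MK_K RK_K)
open Pool.Agent.W263.SP (SparseLaw primeAvg)

variable {K : Type} [Field K] [NumberField K]

/-- `F` is analytic for `Re s > 0` and equal to the incomplete L-function (without the Euler factors at
the places of `S`) for `Re s > 3/2`. -/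
def Continues (a b : 𝓞 K) (S : Finset (HeightOneSpectrum (𝓞 K))) (F : ℂ → ℂ) : Prop :=
  (∀ s : ℂ, 0 < s.re → DifferentiableAt ℂ F s) ∧
    ∀ s : ℂ, 3 / 2 < s.re → F s = LFun a b S (fun _ => 1) s

/-- `|F(s)| ≤ C (1 + |s|)^A` for `Re s > 0`, for some `C` and `A`. -/
def PolyGrowth (F : ℂ → ℂ) : Prop :=
  ∃ (C : ℝ) (A : ℕ), ∀ s : ℂ, 0 < s.re → ‖F s‖ ≤ C * (1 + ‖s‖) ^ A

/-- The Riemann hypothesis: `F` has no zeros with `Re s > 1`. -/
def RH (F : ℂ → ℂ) : Prop := ∀ s : ℂ, 1 < s.re → F s ≠ 0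

/-- `R_1(x) ≤ C log log x` for some `C` and all large `x`. -/
def UpperMean (a b : 𝓞 K) (S : Finset (HeightOneSpectrum (𝓞 K))) : Prop :=
  ∃ C : ℝ, ∀ᶠ x : ℝ in atTop, productMean a b S 1 x ≤ C * Real.log (Real.log x)

open Classical in
/-- The rank of the group `E(K)`. -/
noncomputable def mwRank (a b : 𝓞 K) : ℕ :=
  Module.finrank ℤ (WeierstrassCurve.Affine.Point (WeierstrassCurve.toAffine
    ({ a₁ := 0, a₂ := 0, a₃ := 0, a₄ := (a : K), a₆ := (b : K) } : WeierstrassCurve K)))

/-- **The order of vanishing and the averages `V(x)` outside of sparse sets.** -/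
theorem result (K : Type) [Field K] [NumberField K] (a b : 𝓞 K)
    (S : Finset (HeightOneSpectrum (𝓞 K)))
    (hS : ∀ v, v ∉ S → 2 * (4 * a ^ 3 + 27 * b ^ 2) ∉ v.asIdeal)
    (F : ℂ → ℂ) (hF : Continues a b S F) (hG : PolyGrowth F) :
    ∃ r : ℕ, analyticOrderAt F 1 = r ∧
      (∀ ρ : ℝ, (RH F ∧ (r : ℝ) = ρ ↔
        UpperMean a b S ∧ SparseLaw fun x => primeAvg a b S x + ρ)) ∧
      (RH F ∧ analyticOrderAt F 1 = (mwRank a b : ℕ∞) ↔
        UpperMean a b S ∧ SparseLaw fun x => primeAvg a b S x + mwRank a b) := by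
  revert S
  intro (S : Finset (Pool.Agent.H341R2.sysK K).X) hS hF
  have hS2 : ∀ v, v ∉ S → (2 : 𝓞 K) ∉ v.asIdeal := fun v hv h =>
    hS v hv (v.asIdeal.mul_mem_right _ h)
  have E : Pool.Agent.W263.EP.TData (Pool.Agent.H341R2.sysK K)
      (Pool.Agent.W263.EP.tn (Pool.Agent.H341R2.sysK K)
        (S : Set (Pool.Agent.H341R2.sysK K).X)
        (powerTrace a b) 1) 2 := tdataK hS2
  have cen : ((1 : ℝ) + 1) / 2 = 1 := by norm_num
  have cen2 : ((1 : ℝ) + 2) / 2 = 3 / 2 := by norm_num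
  have hcc : ((((1 : ℝ) + 1) / 2 : ℝ) : ℂ) = 1 := by rw [cen, Complex.ofReal_one]
  have he : ∀ s : ℂ, ((1 : ℝ) + 2) / 2 < s.re → F s = Pool.Agent.W263.EP.LF
      (Pool.Agent.H341R2.sysK K) (S : Set (Pool.Agent.H341R2.sysK K).X) (powerTrace a b) s := by
    intro s hs
    rw [cen2] at hs
    rw [hF.2 s hs, ← LFB_K hS2 (fun _ => 1) (by linarith)]
    exact Pool.Agent.W263.LG.LFB_one (S := Pool.Agent.H341R2.sysK K) (Bs := S) s
  have hd : ∀ s : ℂ, ((1 : ℝ) + 1) / 2 - 1 < s.re → DifferentiableAt ℂ F s := by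
    intro s hs
    refine hF.1 s ?_
    rw [cen] at hs
    linarith
  have hg : ∃ (C : ℝ) (A : ℕ), ∀ s : ℂ, ((1 : ℝ) + 1) / 2 - 1 < s.re → ‖F s‖ ≤ C * (1 + ‖s‖) ^ A := by
    obtain ⟨C, A, hC⟩ := hG
    refine ⟨C, A, fun s hs => hC s ?_⟩
    rw [cen] at hs
    linarith
  have hA : AnalyticOnNhd ℂ F {s : ℂ | 0 < s.re} :=
    DifferentiableOn.analyticOnNhd (fun s hs => (hF.1 s hs).differentiableWithinAt)
      (Pool.Agent.W263.BSD.isOpen_half 0)
  have hA1 : AnalyticAt ℂ F 1 := hA 1 (by simp)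
  -- the order is finite
  obtain ⟨r, hr⟩ : ∃ r : ℕ, analyticOrderAt F 1 = r := by
    by_contra hcon
    push Not at hcon
    have htop : analyticOrderAt F 1 = ⊤ := by
      by_contra h
      obtain ⟨n, hn⟩ := ENat.ne_top_iff_exists.mp h
      exact hcon n hn.symm
    have hz := analyticOrderAt_eq_top.mp htop
    have h0 : EqOn F 0 {s : ℂ | 0 < s.re} :=
      hA.eqOn_zero_of_preconnected_of_eventuallyEq_zero
        ((convex_halfSpace_re_gt 0).isPreconnected) (show (1 : ℂ) ∈ {s : ℂ | 0 < s.re} by simp) hz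
    obtain ⟨m, hm0, hm⟩ := Pool.Agent.W263.MN.LF_low E
    have h3 := hm ((((1 : ℝ) + 1) / 2 + 2 : ℝ) : ℂ) (by rw [Complex.ofReal_re])
    rw [← he _ (by rw [Complex.ofReal_re]; norm_num), h0 (by
      show 0 < ((((1 : ℝ) + 1) / 2 + 2 : ℝ) : ℂ).re
      rw [Complex.ofReal_re]; norm_num)] at h3
    simp only [Pi.zero_apply, norm_zero] at h3
    linarith
  have hA2 : AnalyticAt ℂ F ((((1 : ℝ) + 1) / 2 : ℝ) : ℂ) := by rwa [hcc]
  have hn : meromorphicOrderAt F ((((1 : ℝ) + 1) / 2 : ℝ) : ℂ) = ((r : ℤ) : WithTop ℤ) := by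
    rw [hA2.meromorphicOrderAt_eq, hcc, hr]
    rfl
  have hA' : AnalyticAt ℂ F ((1 : ℝ) : ℂ) := by rwa [Complex.ofReal_one]
  have hr' : analyticOrderAt F ((1 : ℝ) : ℂ) = r := by rwa [Complex.ofReal_one]
  obtain ⟨h0, h1⟩ := Pool.Agent.W263.EP.lead_limit_at hA' hr'
  rw [Complex.ofReal_one] at h0 h1
  have hL : Pool.Agent.W263.LG.CLim (((1 : ℝ) + 1) / 2) F ((r : ℤ) : ℝ)
      (Real.log (‖iteratedDeriv r F 1‖ / r.factorial)) := by
    refine Pool.Agent.W263.LG.clim_of_lead h0 ?_
    rw [cen]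
    refine h1.congr fun s => ?_
    rw [Int.cast_natCast, Real.rpow_natCast]
  have hM : ∀ k x, Pool.Agent.W263.LG.MK (Pool.Agent.H341R2.sysK K)
      (S : Set (Pool.Agent.H341R2.sysK K).X)
      (powerTrace a b) 1 k x = logMean a b S k x := fun k x => MK_K S k x
  have hR : ∀ k x, Pool.Agent.W263.EP.RK (Pool.Agent.H341R2.sysK K)
      (S : Set (Pool.Agent.H341R2.sysK K).X)
      (powerTrace a b) 1 k x = productMean a b S k x := fun k x => RK_K hS2 k x
  have key : ∀ ρ : ℝ, (RH F ∧ (r : ℝ) = ρ ↔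
      UpperMean a b S ∧ SparseLaw fun x => primeAvg a b S x + ρ) := by
    intro ρ
    have h := Pool.Agent.W263.SP.gen_avg E hd he hn hL hg ρ
    simp only [hM, hR] at h
    rw [cen, Int.cast_natCast] at h
    have hlaw : SparseLaw (fun x => logMean a b S 0 x - logMean a b S 1 x + ρ) ↔
        SparseLaw fun x => primeAvg a b S x + ρ := by
      refine Pool.Agent.W263.SP.SparseLaw.congr ?_
      filter_upwards [eventually_gt_atTop 1] with x hx
      rw [Pool.Agent.W263.SP.avgK_eq a b S hx]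
    rw [hlaw] at h
    exact h
  refine ⟨r, hr, key, ?_⟩
  have h2 := key (mwRank a b : ℝ)
  rw [hr]
  have h3 : ((r : ℕ∞) = (mwRank a b : ℕ∞)) ↔ (r : ℝ) = (mwRank a b : ℝ) := by
    rw [Nat.cast_inj, Nat.cast_inj]
  rw [h3]
  exact h2

end Pool.Agent.Results.MP_32c55d_nt.SparseAverages
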