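import Pool.Agent.W263.BSD.OrderFinal

/-!
# One-sided doubling of the Birch and Swinnerton-Dyer products determines their order of magnitude

Let `C : y² = x³ + a x + b` be an elliptic curve over `ℚ`, `a, b ∈ ℤ`, and let
`P(x) = ∏_{p ≤ x, p ∤ 2Δ} (N_p + 1) / p` be the products of Birch and Swinnerton-Dyer. The original form
of their conjecture says that `P(x)` behaves like a constant times `(log x)^r`, `r` the rank.

Here it is shown that `P(x)` has the exact order of magnitude `(log x)^r`, `r = ord_{s=1} L(C, s)`, as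
soon as it does not grow by more than a constant factor between `x` and `x²`: the condition
`P(y) ≤ K P(x)` for `x ≤ y ≤ x²` and large `x` already implies that `L(C, s)` has no zeros with
`Re s > 1` and that `c (log x)^r ≤ P(x) ≤ C (log x)^r`. The opposite one-sided condition `P(x) ≤ K P(y)`
has the same consequences if `L(C, s)` has no real zeros `s > 1`. So for such a curve the rank form
of the conjecture is equivalent to `P(x) ≍ (log x)^rank`.

The proof uses Hasse's bound, Landau's lemma for Laplace transforms, and the theorem that a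
function of one-sided slow growth (with no a priori upper bound) whose Laplace-Abel means are
bounded is bounded; everything is proved in the imported files.
-/

set_option autoImplicit false

namespace Pool.Agent.Results.MP_32c55d_nt.ZOneSidedDoubling

open Pool.Agent.W263.BSD Filter Topology

/-- two exact orders coincide -/
theorem le_of_orders {P : ℝ → ℝ} {m n : ℕ} {c C : ℝ} (hc : 0 < c)
    (h1 : ∀ᶠ x : ℝ in atTop, c * (Real.log x) ^ m ≤ P x)
    (h2 : ∀ᶠ x : ℝ in atTop, P x ≤ C * (Real.log x) ^ n) : m ≤ n := by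
  by_contra hlt
  push Not at hlt
  have h3 : Tendsto (fun x : ℝ => (Real.log x) ^ (m - n)) atTop atTop :=
    (tendsto_pow_atTop (by omega)).comp Real.tendsto_log_atTop
  obtain ⟨x, hx1, hx2, hx3, hx4⟩ := (h1.and (h2.and ((h3.eventually_gt_atTop (C / c)).and
    (eventually_gt_atTop (Real.exp 0))))).exists
  have hx0 : 0 < x := lt_trans (Real.exp_pos 0) hx4
  have hl : 0 < Real.log x := (Real.lt_log_iff_exp_lt hx0).mpr hx4
  have h4 : (Real.log x) ^ m = (Real.log x) ^ (m - n) * (Real.log x) ^ n := by
    rw [← pow_add]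
    congr 1
    omega
  have h5 : c * (Real.log x) ^ m ≤ C * (Real.log x) ^ n := hx1.trans hx2
  rw [h4] at h5
  have h6 : 0 < (Real.log x) ^ n := pow_pos hl n
  have h7 : C < c * (Real.log x) ^ (m - n) := by
    rw [div_lt_iff₀ hc] at hx3
    linarith
  nlinarith [mul_lt_mul_of_pos_right h7 h6]

/-- **One-sided doubling of the products is equivalent to their exact order of magnitude.**
For every curve `y² = x³ + a x + b` with `L`-function `F`, of order `r` at `s = 1`, equivalent are: the
product `P(x)` is of exact order `(log x)^r`; `P(y) ≤ K P(x)` for `x ≤ y ≤ x²`, `x` large; `F` has no real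
zeros `> 1` and `P(x) ≤ K P(y)` for `x ≤ y ≤ x²`, `x` large. In this case `F` has no zeros with real part
`> 1`, and the rank form of the Birch and Swinnerton-Dyer conjecture holds for the curve if and only if
`P(x)` is of exact order `(log x)^rank`. -/
theorem result (a b : ℤ) (_hΔ : 4 * a ^ 3 + 27 * b ^ 2 ≠ 0) (F : ℂ → ℂ) (hF : IsLSeries a b F) :
    (∃ r : ℕ, analyticOrderAt F 1 = r ∧ List.TFAE [
      ∃ c C : ℝ, 0 < c ∧ ∀ᶠ x : ℝ in atTop, c * (Real.log x) ^ r ≤ bsdProduct a b x ∧
        bsdProduct a b x ≤ C * (Real.log x) ^ r,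
      ∃ K : ℝ, ∀ᶠ x : ℝ in atTop, ∀ y, x ≤ y → y ≤ x ^ 2 →
        bsdProduct a b y ≤ K * bsdProduct a b x,
      (∀ s : ℝ, 1 < s → F s ≠ 0) ∧ ∃ K : ℝ, ∀ᶠ x : ℝ in atTop, ∀ y, x ≤ y → y ≤ x ^ 2 →
        bsdProduct a b x ≤ K * bsdProduct a b y]) ∧
    ((∃ K : ℝ, ∀ᶠ x : ℝ in atTop, ∀ y, x ≤ y → y ≤ x ^ 2 →
        bsdProduct a b y ≤ K * bsdProduct a b x) →
      (∀ s : ℂ, 1 < s.re → F s ≠ 0) ∧
      (analyticOrderAt F 1 =
          ((Module.finrank ℤ
            (WeierstrassCurve.Affine.Point
              (WeierstrassCurve.toAffine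
                ({ a₁ := 0, a₂ := 0, a₃ := 0, a₄ := (a : ℚ), a₆ := (b : ℚ) } :
                  WeierstrassCurve ℚ))) : ℕ) : ℕ∞) ↔
        ∃ c C : ℝ, 0 < c ∧ ∀ᶠ x : ℝ in atTop,
          c * (Real.log x) ^ (Module.finrank ℤ
            (WeierstrassCurve.Affine.Point
              (WeierstrassCurve.toAffine
                ({ a₁ := 0, a₂ := 0, a₃ := 0, a₄ := (a : ℚ), a₆ := (b : ℚ) } :
                  WeierstrassCurve ℚ)))) ≤ bsdProduct a b x ∧
          bsdProduct a b x ≤ C * (Real.log x) ^ (Module.finrank ℤ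
            (WeierstrassCurve.Affine.Point
              (WeierstrassCurve.toAffine
                ({ a₁ := 0, a₂ := 0, a₃ := 0, a₄ := (a : ℚ), a₆ := (b : ℚ) } :
                  WeierstrassCurve ℚ)))))) := by
  obtain ⟨r, hr⟩ := order_finite hF
  have ht := order_tfae hF hr
  refine ⟨⟨r, hr, ht⟩, fun hK => ?_⟩
  have h1 := (ht.out 1 0).mp hK
  refine ⟨?_, ?_⟩
  · obtain ⟨c, C, hc, h⟩ := h1
    exact fun s hs => no_zeros_of_order hF (h.mono fun x hx => hx.2) hs
  generalize Module.finrank ℤ
            (WeierstrassCurve.Affine.Point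
              (WeierstrassCurve.toAffine
                ({ a₁ := 0, a₂ := 0, a₃ := 0, a₄ := (a : ℚ), a₆ := (b : ℚ) } :
                  WeierstrassCurve ℚ))) = m
  rw [hr]
  constructor
  · intro h2
    have h3 : r = m := by exact_mod_cast h2
    rw [← h3]
    exact h1
  · rintro ⟨c', C', hc', h2⟩
    obtain ⟨c, C, hc, h⟩ := h1
    have h3 : r ≤ m := le_of_orders hc (h.mono fun x hx => hx.1) (h2.mono fun x hx => hx.2)
    have h4 : m ≤ r := le_of_orders hc' (h2.mono fun x hx => hx.1) (h.mono fun x hx => hx.2)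
    exact_mod_cast le_antisymm h3 h4

end Pool.Agent.Results.MP_32c55d_nt.ZOneSidedDoubling
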